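import Mathlib
import Pool.Agent.H84.UC.Segment

/-!
# Segments for kicks that are not isometries

Version of H84/UC/SegDet, Segment for a set `𝒢` of admissible kicks: the kicked maps `a • h k` (`a ∈ 𝒢`)
are `L`-Lipschitz and keep the moving disc.  The proofs are those of `seg_det` and `segment`.
-/

set_option autoImplicit false

open Pool.Agent.H84.UC

namespace Pool.Agent.H35.UP

/-- a sequence of maps with a moving disc that is kept by the kicks from `𝒢` -/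
structure Sys {S K : Type} [MetricSpace S] [Monoid K] [MulAction K S] (h : ℕ → S → S) (X : ℕ → S)
    (𝒢 : Set K) (L r : ℝ) : Prop where
  lipK : ∀ k, ∀ a ∈ 𝒢, ∀ x y, dist (a • h k x) (a • h k y) ≤ L * dist x y
  stay : ∀ k, ∀ a ∈ 𝒢, ∀ ρ, r / 2 ≤ ρ → ρ ≤ r → ∀ y, dist y (X k) ≤ ρ →
    dist (a • h k y) (X (k + 1)) ≤ ρ
  disc : MovingDisc h X r

/-- steer into the moving disc or contract -/
def Blk {S K : Type} [MetricSpace S] [Monoid K] [MulAction K S] {n : ℕ} (γ : Fin n → K)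
    (h : ℕ → S → S) (X : ℕ → S) (r ρL : ℝ) (J : ℕ) : Prop :=
  ∀ (k : ℕ) (y : S), Hit γ h X r J k y ∨
    (∀ y', dist y' y ≤ ρL → dist (cp h k J y') (cp h k J y) ≤ dist y' y / 2)

theorem cp_blocksG {S : Type} (G : ℕ → S → S) (J i k : ℕ) (x : S) :
    cp (fun i x => cp G (i * J) J x) i k x = cp G (i * J) (k * J) x := by
  induction k with
  | zero => simp
  | succ k ih =>
    rw [cp_succ, ih, Nat.succ_mul, cp_add, Nat.add_mul]

theorem seg_stayG {S K : Type} [MetricSpace S] [Monoid K] [MulAction K S] {𝒢 : Set K}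
    {h : ℕ → S → S} {X : ℕ → S} {L r : ℝ} (hr : 0 < r) (hS : Sys h X 𝒢 L r) (R : ℕ → K)
    (hR : ∀ j, R j ∈ 𝒢) (k : ℕ) (y : S) (hy : dist y (X k) ≤ 3 / 4 * r) (l : ℕ) :
    dist (cp (fun j x => R j • h (k + j) x) 0 l y) (X (k + l)) ≤ 3 / 4 * r := by
  induction l with
  | zero => simpa using hy
  | succ l ih =>
    rw [cp_succ]
    simp only [Nat.zero_add]
    rw [← Nat.add_assoc]
    exact hS.stay (k + l) _ (hR l) _ (by linarith) (by linarith) _ ih

open Classical in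
theorem seg_detG {S K : Type} [MetricSpace S] [Monoid K] [MulAction K S] {𝒢 : Set K}
    {L r ρL ρ : ℝ} (hL : 1 ≤ L) (hr : 0 < r) (hρL : 0 < ρL) (hρ : 0 < ρ) {J n a b e lq : ℕ}
    (hJ : 1 ≤ J) (ha : L ^ J ≤ 2 ^ a) (γ : Fin n → K) (h : ℕ → S → S) (X : ℕ → S)
    (hS : Sys h X 𝒢 L r)
    (hblk : ∀ (k : ℕ) (y : S), Hit γ h X r J k y ∨
      (∀ y', dist y' y ≤ ρL → dist (cp h k J y') (cp h k J y) ≤ dist y' y / 2))
    (N : Finset S) (hN : ∀ x, ∃ ζ ∈ N, dist ζ x ≤ ρL)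
    (h1 : ρ * 2 ^ ((a + 1) * e) ≤ ρL) (h2 : ρ * 2 ^ ((a + 1) * e) ≤ r / 8)
    (h3 : 7 / 8 * r / 2 ^ lq < ρ) (h4 : (ρL + ρ) * 2 ^ ((a + 1) * e + a * lq) / 2 ^ b < ρ)
    (R : ℕ → K) (act : ℕ → Prop) (hR0 : ∀ k, b * J ≤ k → R k = 1)
    (hR1 : ∀ i < b, ¬ act i → ∀ j < J, R (i * J + j) = 1) (hR2 : ∀ k, R k ∈ 𝒢)
    (p : S)
    (hE : ((Finset.range b).filter (fun i =>
      ¬ dist (cp (kick R h) 0 (i * J) p) (X (i * J)) ≤ 3 / 4 * r ∧
      (Hit γ h X r J (i * J) (cp (kick R h) 0 (i * J) p) ∨ act i))).card ≤ e) :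
    ∃ z, (z = X (b * J + lq) ∨ ∃ i ≤ b, ∃ ζ ∈ N, z = cp (kick R h) (i * J) (b * J + lq - i * J) ζ) ∧
      ∀ x, dist x p ≤ ρ → dist (cp (kick R h) 0 (b * J + lq) x) z < ρ := by
  set G := kick R h with hG
  have hGx : ∀ t x, G t x = R t • h t x := fun t x => rfl
  have hGlip : ∀ t x y, dist (G t x) (G t y) ≤ L * dist x y := by
    intro t x y
    rw [hGx, hGx]
    exact hS.lipK t _ (hR2 t) x y
  have hL0 : 0 ≤ L := by linarith
  set g : ℕ → S → S := fun i x => cp G (i * J) J x with hg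
  have hcp : ∀ i k x, cp g i k x = cp G (i * J) (k * J) x := fun i k x => cp_blocksG G J i k x
  have hcp0 : ∀ k x, cp g 0 k x = cp G 0 (k * J) x := by
    intro k x
    rw [hcp, Nat.zero_mul]
  have hglip : ∀ i x y, dist (g i x) (g i y) ≤ 2 ^ a * dist x y := by
    intro i x y
    calc dist (g i x) (g i y) ≤ L ^ J * dist x y := cp_lip hL0 (fun i _ x y => hGlip _ x y) x y
      _ ≤ 2 ^ a * dist x y := mul_le_mul_of_nonneg_right ha dist_nonneg
  have hun : ∀ i < b, ¬ act i → ∀ x, g i x = cp h (i * J) J x := by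
    intro i hi hact x
    simp only [hg]
    apply cp_congr
    intro j hj
    funext x
    rw [hGx, hR1 i hi hact j hj, one_smul]
  set E : ℕ → Prop := fun i => ¬ dist (cp G 0 (i * J) p) (X (i * J)) ≤ 3 / 4 * r ∧
      (Hit γ h X r J (i * J) (cp G 0 (i * J) p) ∨ act i) with hEdef
  -- good steps
  have hgood : ∀ i < b, ¬ dist (cp G 0 (i * J) p) (X (i * J)) ≤ 3 / 4 * r → ¬ E i →
      ∀ x, dist x (cp g 0 i p) ≤ ρL →
      dist (g i x) (g i (cp g 0 i p)) ≤ dist x (cp g 0 i p) / 2 := by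
    intro i hi hcap hEi x hx
    rw [hcp0] at hx ⊢
    have hno : ¬ Hit γ h X r J (i * J) (cp G 0 (i * J) p) ∧ ¬ act i := by
      constructor
      · intro hh
        exact hEi ⟨hcap, Or.inl hh⟩
      · intro hh
        exact hEi ⟨hcap, Or.inr hh⟩
    rw [hun i hi hno.2, hun i hi hno.2]
    rcases hblk (i * J) (cp G 0 (i * J) p) with hh | hh
    · exact absurd hh hno.1
    · exact hh x hx
  have hbad : ∀ i x, dist (g i x) (g i (cp g 0 i p)) ≤ 2 ^ a * dist x (cp g 0 i p) :=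
    fun i x => hglip i _ _
  have hcardb : ((Finset.range b).filter E).card ≤ e := by
    convert hE
  have h2pos : (0 : ℝ) < 2 ^ ((a + 1) * e) := by positivity
  have hpow : (2 : ℝ) ^ (a * e) ≤ 2 ^ ((a + 1) * e) :=
    pow_le_pow_right₀ (by norm_num) (Nat.mul_le_mul_right _ (Nat.le_succ a))
  have hxp : ∀ x, dist x p ≤ ρ → dist x p * 2 ^ (a * e) ≤ ρL := by
    intro x hx
    calc dist x p * 2 ^ (a * e) ≤ ρ * 2 ^ ((a + 1) * e) :=
          mul_le_mul hx hpow (by positivity) hρ.le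
      _ ≤ ρL := h1
  by_cases hcase : ∃ i ≤ b, dist (cp G 0 (i * J) p) (X (i * J)) ≤ 3 / 4 * r
  · -- case 1
    have hex : ∃ i, i ≤ b ∧ dist (cp G 0 (i * J) p) (X (i * J)) ≤ 3 / 4 * r := hcase
    set i₀ := Nat.find hex with hi₀
    obtain ⟨hi₀b, hi₀c⟩ := Nat.find_spec hex
    rw [← hi₀] at hi₀b hi₀c
    have hmin : ∀ i < i₀, ¬ dist (cp G 0 (i * J) p) (X (i * J)) ≤ 3 / 4 * r := by
      intro i hi hc
      exact Nat.find_min hex hi ⟨by omega, hc⟩
    have hcard0 : ((Finset.range i₀).filter E).card ≤ e := by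
      refine le_trans (Finset.card_le_card ?_) hcardb
      apply Finset.filter_subset_filter
      intro i hi
      rw [Finset.mem_range] at hi ⊢
      omega
    obtain ⟨-, hrec⟩ := record g i₀ a e p ρL hρL E (fun i _ _ x => hbad i x)
      (fun i hi hEi x hx => hgood i (by omega) (hmin i hi) hEi x hx) (by convert hcard0) N hN
    refine ⟨X (b * J + lq), Or.inl rfl, fun x hx => ?_⟩
    have e1 := hrec x (hxp x hx)
    rw [hcp0, hcp0] at e1
    have e2 : dist x p * 2 ^ ((a + 1) * e) / 2 ^ i₀ ≤ r / 8 := by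
      have : dist x p * 2 ^ ((a + 1) * e) ≤ ρ * 2 ^ ((a + 1) * e) :=
        mul_le_mul_of_nonneg_right hx h2pos.le
      have h5 : dist x p * 2 ^ ((a + 1) * e) / 2 ^ i₀ ≤ dist x p * 2 ^ ((a + 1) * e) := by
        apply div_le_self (by positivity)
        exact one_le_pow₀ (by norm_num)
      linarith
    have e3 : dist (cp G 0 (i₀ * J) x) (X (i₀ * J)) ≤ 7 / 8 * r := by
      have := dist_triangle (cp G 0 (i₀ * J) x) (cp G 0 (i₀ * J) p) (X (i₀ * J))
      linarith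
    have e4 : ∀ m, i₀ * J ≤ m → dist (cp G 0 m x) (X m) ≤ 7 / 8 * r := by
      intro m hm
      induction m, hm using Nat.le_induction with
      | base => exact e3
      | succ m hm ih =>
        rw [cp_succ, Nat.zero_add, hGx]
        exact hS.stay m _ (hR2 m) _ (by linarith) (by linarith) _ ih
    have e5 : ∀ k, dist (cp G 0 (b * J + k) x) (X (b * J + k)) ≤ 7 / 8 * r / 2 ^ k := by
      intro k
      induction k with
      | zero =>
        rw [Nat.add_zero, pow_zero, div_one]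
        exact e4 _ (Nat.mul_le_mul_right _ hi₀b)
      | succ k ih =>
        rw [← Nat.add_assoc, cp_succ, Nat.zero_add, hGx, hR0 _ (Nat.le_add_right _ _), one_smul]
        have h6 : dist (cp G 0 (b * J + k) x) (X (b * J + k)) ≤ r := by
          have h7 : 7 / 8 * r / 2 ^ k ≤ 7 / 8 * r := div_le_self (by positivity)
            (one_le_pow₀ (by norm_num))
          linarith
        have h8 := (hS.disc (b * J + k)).2 _ h6
        have h9 : 7 / 8 * r / 2 ^ (k + 1) = 7 / 8 * r / 2 ^ k / 2 := by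
          rw [pow_succ]; field_simp
        rw [h9]
        linarith
    exact lt_of_le_of_lt (e5 lq) h3
  · -- case 2
    push Not at hcase
    obtain ⟨⟨i, hi, ζ, hζ, hdist⟩, hrec⟩ := record g b a e p ρL hρL E (fun i _ _ x => hbad i x)
      (fun i hi hEi x hx => hgood i hi (not_le.2 (hcase i hi.le)) hEi x hx) (by convert hcardb) N hN
    have hiJ : i * J + (b - i) * J = b * J := by
      rw [← Nat.add_mul, Nat.add_sub_cancel' hi]
    have hlen : b * J + lq - i * J = (b - i) * J + lq := by omega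
    refine ⟨cp G (i * J) (b * J + lq - i * J) ζ, Or.inr ⟨i, hi, ζ, hζ, rfl⟩, fun x hx => ?_⟩
    rw [hlen, cp_add, cp_add, Nat.zero_add, hiJ]
    have e1 := hrec x (hxp x hx)
    rw [hcp0, hcp0] at e1
    rw [hcp, hcp0] at hdist
    have e2 : dist (cp G 0 (b * J) x) (cp G (i * J) ((b - i) * J) ζ) ≤
        (ρL + ρ) * 2 ^ ((a + 1) * e) / 2 ^ b := by
      have h5 := dist_triangle (cp G 0 (b * J) x) (cp G 0 (b * J) p)
        (cp G (i * J) ((b - i) * J) ζ)
      rw [dist_comm (cp G 0 (b * J) p)] at h5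
      have h6 : dist x p * 2 ^ ((a + 1) * e) / 2 ^ b ≤ ρ * 2 ^ ((a + 1) * e) / 2 ^ b := by
        gcongr
      have h7 : (ρL + ρ) * 2 ^ ((a + 1) * e) / 2 ^ b =
          ρ * 2 ^ ((a + 1) * e) / 2 ^ b + ρL * 2 ^ ((a + 1) * e) / 2 ^ b := by ring
      rw [h7]
      linarith
    have hL2 : L ≤ 2 ^ a := by
      calc L = L ^ 1 := (pow_one L).symm
        _ ≤ L ^ J := pow_le_pow_right₀ hL hJ
        _ ≤ 2 ^ a := ha
    have hLq : L ^ lq ≤ 2 ^ (a * lq) := by
      rw [pow_mul]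
      exact pow_le_pow_left₀ hL0 hL2 lq
    calc dist (cp G (b * J) lq (cp G 0 (b * J) x))
          (cp G (b * J) lq (cp G (i * J) ((b - i) * J) ζ))
        ≤ L ^ lq * dist (cp G 0 (b * J) x) (cp G (i * J) ((b - i) * J) ζ) :=
          cp_lip hL0 (fun i _ x y => hGlip _ x y) _ _
      _ ≤ 2 ^ (a * lq) * ((ρL + ρ) * 2 ^ ((a + 1) * e) / 2 ^ b) :=
          mul_le_mul hLq e2 dist_nonneg (by positivity)
      _ = (ρL + ρ) * 2 ^ ((a + 1) * e + a * lq) / 2 ^ b := by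
          rw [pow_add]; ring
      _ < ρ := h4

open Classical in
theorem segmentG {S K : Type} [MetricSpace S] [CompactSpace S] [Nonempty S] [Monoid K]
    [MulAction K S] (𝒢 : Set K) (h1𝒢 : (1 : K) ∈ 𝒢) (L r ρL ρmax : ℝ) (hL : 1 ≤ L) (hr : 0 < r)
    (hρL : 0 < ρL) (hρ : 0 < ρmax) (J n : ℕ) (hJ : 1 ≤ J) (hn : 0 < n) (γ : Fin n → K)
    (hγ : ∀ i, γ i ∈ 𝒢) (B : ℕ) :
    ∃ (Ω : Type) (_ : Fintype Ω) (_ : Nonempty Ω) (m Lw : ℕ) (R : Ω → ℕ → K) (ρ : ℝ),
      1 ≤ Lw ∧ (∀ ω k, R ω k ∈ 𝒢) ∧ 0 < ρ ∧ ρ ≤ ρmax ∧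
      ∀ (h : ℕ → S → S) (X : ℕ → S), Sys h X 𝒢 L r → Blk γ h X r ρL J →
        ∃ Z : Ω → Finset S, (∀ ω, (Z ω).card ≤ m) ∧ ∀ p : S,
          5 * ((m + B * Lw) * (Finset.univ.filter (fun ω : Ω => ¬ ∃ z ∈ Z ω, ∀ x, dist x p ≤ ρ →
            dist (cp (kick (R ω) h) 0 Lw x) z < ρ)).card) ≤ Fintype.card Ω := by
  obtain ⟨a, ha⟩ := pow_unbounded_of_one_lt (L ^ J) (one_lt_two)
  -- the net
  obtain ⟨N, hN⟩ : ∃ N : Finset S, ∀ x, ∃ ζ ∈ N, dist ζ x ≤ ρL := by
    obtain ⟨t, _, htf, ht⟩ := finite_cover_balls_of_compact (isCompact_univ (X := S)) hρL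
    refine ⟨htf.toFinset, fun x => ?_⟩
    have hx := ht (Set.mem_univ x)
    rw [Set.mem_iUnion₂] at hx
    obtain ⟨ζ, hζ, hxζ⟩ := hx
    refine ⟨ζ, htf.mem_toFinset.2 hζ, ?_⟩
    rw [dist_comm]
    exact (Metric.mem_ball.1 hxζ).le
  set ρm : ℝ := min (min ρL (r / 8)) ρmax with hρmdef
  have hρm0 : 0 < ρm := lt_min (lt_min hρL (by linarith)) hρ
  have hρmL : ρm ≤ ρL := (min_le_left _ _).trans (min_le_left _ _)
  have hρmr : ρm ≤ r / 8 := (min_le_left _ _).trans (min_le_right _ _)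
  have hρmx : ρm ≤ ρmax := min_le_right _ _
  obtain ⟨c1, hc1⟩ := seg_exists_pow (x := r) hρm0
  obtain ⟨c2, hc2⟩ := seg_exists_pow (x := ρL) hρm0
  obtain ⟨A, hA⟩ : ∃ A : ℕ, A = 2 ^ (2 * (a + 1) * (a + 2) + 1) := ⟨_, rfl⟩
  have hApos : 0 < A := by rw [hA]; positivity
  have : Nonempty (Fin A) := ⟨⟨0, hApos⟩⟩
  have : Nonempty (Fin n) := ⟨⟨0, hn⟩⟩
  have hWne : Nonempty ((Fin J → Fin n) × Fin A) := inferInstance
  have hWpos : 1 ≤ Fintype.card ((Fin J → Fin n) × Fin A) := Fintype.card_pos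
  obtain ⟨q, hq1, hq⟩ := seg_num (Fintype.card ((Fin J → Fin n) × Fin A)) N.card J B a c1
    (2 * (a + 1) * (a + 2)) (a * c1 + c2 + 2) hWpos
  obtain ⟨b, hb⟩ : ∃ b : ℕ, b = 2 * (a + 1) * (a + 2) * q + (a * c1 + c2 + 2) := ⟨_, rfl⟩
  obtain ⟨lq, hlq⟩ : ∃ lq : ℕ, lq = (a + 1) * (2 * q) + c1 := ⟨_, rfl⟩
  obtain ⟨ρ, hρdef⟩ : ∃ ρ : ℝ, ρ = ρm / 2 ^ ((a + 1) * (2 * q)) := ⟨_, rfl⟩
  have hρ0 : 0 < ρ := by rw [hρdef]; positivity
  have hρm : ρ ≤ ρm := by
    rw [hρdef]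
    exact div_le_self hρm0.le (one_le_pow₀ (by norm_num))
  refine ⟨Fin b → (Fin J → Fin n) × Fin A, inferInstance, inferInstance, 1 + (b + 1) * N.card,
    b * J + lq, fun ω => segR γ ω, ρ, ?_, ?_, hρ0, hρm.trans hρmx, ?_⟩
  · have h1 : 1 ≤ b := by omega
    have h2 : 1 ≤ b * J := Nat.mul_pos h1 hJ
    omega
  · intro ω k
    exact segR_ind γ (fun x => x ∈ 𝒢) h1𝒢 hγ ω k
  intro h X hS hblk
  have hRr : ∀ (ω : Fin b → (Fin J → Fin n) × Fin A) k, segR γ ω k ∈ 𝒢 :=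
    fun ω k => segR_ind γ (fun x => x ∈ 𝒢) h1𝒢 hγ ω k
  refine ⟨fun ω => segZ (kick (segR γ ω) h) X N b J (b * J + lq),
    fun ω => segZ_card _ _ _ _ _ _, ?_⟩
  intro p
  -- the two kinds of bad words
  have hbad : ∀ ω : Fin b → (Fin J → Fin n) × Fin A,
      (¬ ∃ z ∈ segZ (kick (segR γ ω) h) X N b J (b * J + lq), ∀ x, dist x p ≤ ρ →
        dist (cp (kick (segR γ ω) h) 0 (b * J + lq) x) z < ρ) →
      (q - 1 + 1 ≤ ((Finset.range b).filter (fun i =>
        ¬ dist (pos (segStep γ h) ω p i) (X (i * J)) ≤ 3 / 4 * r ∧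
          Hit γ h X r J (i * J) (pos (segStep γ h) ω p i))).card) ∨
      (q ≤ (Finset.univ.filter (fun i => (ω i).2.val = 0)).card) := by
    intro ω hω
    by_contra hcon
    obtain ⟨hcA, hcB⟩ := not_or.1 hcon
    rw [not_le] at hcA hcB
    apply hω
    have hcB' : ((Finset.range b).filter (fun i => (ext ω i).2.val = 0)).card < q := by
      refine lt_of_le_of_lt ?_ hcB
      refine le_of_eq_of_le ?_ ((seg_act_count
        (fun u : (Fin J → Fin n) × Fin A => u.2.val = 0) ω).trans (le_of_eq ?_)) <;> congr!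
    have hE : ((Finset.range b).filter (fun i =>
      ¬ dist (cp (kick (segR γ ω) h) 0 (i * J) p) (X (i * J)) ≤ 3 / 4 * r ∧
      (Hit γ h X r J (i * J) (cp (kick (segR γ ω) h) 0 (i * J) p) ∨
        (ext ω i).2.val = 0))).card ≤ 2 * q := by
      have hsub : (Finset.range b).filter (fun i =>
          ¬ dist (cp (kick (segR γ ω) h) 0 (i * J) p) (X (i * J)) ≤ 3 / 4 * r ∧
          (Hit γ h X r J (i * J) (cp (kick (segR γ ω) h) 0 (i * J) p) ∨
            (ext ω i).2.val = 0)) ⊆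
          ((Finset.range b).filter (fun i =>
            ¬ dist (pos (segStep γ h) ω p i) (X (i * J)) ≤ 3 / 4 * r ∧
            Hit γ h X r J (i * J) (pos (segStep γ h) ω p i))) ∪
          ((Finset.range b).filter (fun i => (ext ω i).2.val = 0)) := by
        intro i hi
        rw [Finset.mem_filter] at hi
        obtain ⟨hir, hi1, hi2⟩ := hi
        rw [Finset.mem_union, Finset.mem_filter, Finset.mem_filter]
        have hps := seg_pos γ h ω p i (Finset.mem_range.1 hir).le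
        rcases hi2 with hi2 | hi2
        · left
          refine ⟨hir, ?_⟩
          rw [hps]
          exact ⟨hi1, hi2⟩
        · exact Or.inr ⟨hir, hi2⟩
      have h1 := (Finset.card_le_card hsub).trans (Finset.card_union_le _ _)
      omega
    obtain ⟨z, hz1, hz2⟩ := seg_detG hL hr hρL hρ0 (b := b) (e := 2 * q) (lq := lq) hJ ha.le γ h X
      hS hblk N hN
      (by rw [hρdef, div_mul_cancel₀ _ (by positivity)]; exact hρmL)
      (by rw [hρdef, div_mul_cancel₀ _ (by positivity)]; exact hρmr)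
      (by rw [hρdef, hlq]; exact seg_h3 hr hc1)
      (by rw [hρdef, hlq, hb]; exact seg_h4 hρm0 hc2)
      (segR γ ω) (fun i => (ext ω i).2.val = 0)
      (fun k hk => by unfold segR; rw [if_neg (by omega)])
      (fun i hi hact j hj => by
        rw [segR_eq γ ω hi hj]; unfold segBlk; rw [dif_neg (fun hh => hact hh.2)])
      (hRr ω) p (by convert hE)
    exact ⟨z, segZ_mem hz1, hz2⟩
  -- counting
  have hcapA : ∀ (i : ℕ) (u : (Fin J → Fin n) × Fin A) (y : S), dist y (X (i * J)) ≤ 3 / 4 * r →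
      dist (segStep γ h i u y) (X ((i + 1) * J)) ≤ 3 / 4 * r := by
    intro i u y hy
    rw [Nat.succ_mul]
    exact seg_stayG hr hS (segBlk γ u) (fun j => segBlk_ind γ (fun x => x ∈ 𝒢) h1𝒢 hγ u j)
      (i * J) y hy J
  have hnsA : ∀ (i : ℕ) (y : S), Hit γ h X r J (i * J) y →
      ∃ u : (Fin J → Fin n) × Fin A, dist (segStep γ h i u y) (X ((i + 1) * J)) ≤ 3 / 4 * r := by
    rintro i y ⟨u, hu⟩
    refine ⟨(u, ⟨0, hApos⟩), ?_⟩
    rw [Nat.succ_mul]
    have h1 : segStep γ h i ((u, ⟨0, hApos⟩) : (Fin J → Fin n) × Fin A) y =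
        cp (fun j x => (if hj : j < J then γ (u ⟨j, hj⟩) else 1) • h (i * J + j) x) 0 J y := by
      unfold segStep
      apply cp_congr
      intro j hj
      funext x
      simp only [Nat.zero_add]
      congr 1
      unfold segBlk
      rw [dif_pos ⟨hj, rfl⟩, dif_pos hj]
    rw [h1]
    exact hu
  have hcA := count_ns b (segStep γ h) (fun i y => dist y (X (i * J)) ≤ 3 / 4 * r)
    (fun i y => Hit γ h X r J (i * J) y) hcapA hnsA (q - 1) p
  have hcB := count_act (fun u : (Fin J → Fin n) × Fin A => u.2.val = 0)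
    ((2 : ℝ) ^ (2 * (a + 1) * (a + 2) + 1)) (one_le_pow₀ (by norm_num))
    (by
      have h1 := seg_act_card (n := n) (J := J) (A := A)
      have h2 : ((A : ℕ) : ℝ) = 2 ^ (2 * (a + 1) * (a + 2) + 1) := by
        rw [hA]; push_cast; ring
      have h3 : ((A : ℕ) : ℝ) * ((Finset.univ.filter
          (fun u : (Fin J → Fin n) × Fin A => u.2.val = 0)).card : ℝ) ≤
          Fintype.card ((Fin J → Fin n) × Fin A) := by exact_mod_cast h1
      rw [← h2]
      convert h3) b q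
  have hun := seg_union _ _ _ hbad
  have hfin := seg_final (M := ((1 + (b + 1) * N.card + B * (b * J + lq) : ℕ) : ℝ))
    (W := (Fintype.card ((Fin J → Fin n) × Fin A) : ℝ))
    (x := (1 - 1 / (Fintype.card ((Fin J → Fin n) × Fin A) : ℝ)) ^ (q - 1))
    (Nat.cast_nonneg _) (Nat.cast_nonneg _) hb hcA hcB (by rw [hb, hlq]; exact hq)
  have hcard : (Fintype.card (Fin b → (Fin J → Fin n) × Fin A) : ℝ) =
      (Fintype.card ((Fin J → Fin n) × Fin A) : ℝ) ^ b := by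
    rw [Fintype.card_fun, Fintype.card_fin]
    push_cast
    rfl
  have hgoal : 5 * (((1 + (b + 1) * N.card + B * (b * J + lq) : ℕ) : ℝ) *
      ((Finset.univ.filter (fun ω : Fin b → (Fin J → Fin n) × Fin A =>
        ¬ ∃ z ∈ segZ (kick (segR γ ω) h) X N b J (b * J + lq), ∀ x, dist x p ≤ ρ →
        dist (cp (kick (segR γ ω) h) 0 (b * J + lq) x) z < ρ)).card : ℝ)) ≤
      (Fintype.card (Fin b → (Fin J → Fin n) × Fin A) : ℝ) := by
    rw [hcard]
    refine le_trans ?_ hfin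
    gcongr
    refine le_of_eq_of_le ?_ (hun.trans (le_of_eq ?_)) <;> congr!
  exact_mod_cast hgoal

end Pool.Agent.H35.UP
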