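import Mathlib
import Pool.Agent.H84.UC.Sphere

/-!
# Translations of the sphere as kicks
-/

set_option autoImplicit false

open Filter Topology OnePoint
open Pool.Agent.H44.Fatou
open Pool.Agent.H91.Fatou (nn nn_pos chord_pt)
open Pool.Agent.H84.UC
open Pool.Agent.H76.Fatou (Lift)

namespace Pool.Agent.H35.UP

/-- translations `z ↦ z + t` -/
@[ext] structure TR where
  t : ℂ

instance : Mul TR := ⟨fun a b => ⟨a.t + b.t⟩⟩
instance : One TR := ⟨⟨0⟩⟩

@[simp] theorem TR.mul_t (a b : TR) : (a * b).t = a.t + b.t := rfl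
@[simp] theorem TR.one_t : (1 : TR).t = 0 := rfl

instance : Monoid TR where
  mul_assoc a b c := by ext; simp [add_assoc]
  one_mul a := by ext; simp
  mul_one a := by ext; simp

/-- the action of translations on the sphere -/
noncomputable def trs (a : TR) (x : Sph) : Sph :=
  x.elim (∞ : Sph) (fun z => ((z + a.t : ℂ) : Sph))

noncomputable instance : MulAction TR Sph where
  smul a x := trs a x
  one_smul x := by
    show trs 1 x = x
    induction x using OnePoint.rec with
    | infty => rfl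
    | coe z =>
      show ((z + (1 : TR).t : ℂ) : Sph) = z
      rw [TR.one_t, add_zero]
  mul_smul a b x := by
    show trs (a * b) x = trs a (trs b x)
    induction x using OnePoint.rec with
    | infty => rfl
    | coe z =>
      show ((z + (a * b).t : ℂ) : Sph) = ((z + b.t + a.t : ℂ) : Sph)
      rw [TR.mul_t, add_assoc, add_comm a.t b.t]

@[simp] theorem tr_infty (a : TR) : a • (∞ : Sph) = ∞ := rfl
@[simp] theorem tr_coe (a : TR) (z : ℂ) : a • (z : Sph) = ((z + a.t : ℂ) : Sph) := rfl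

theorem tr_pt (a : TR) (x y : ℂ) : a • (pt x y : Sph) = pt (x + a.t * y) y := by
  unfold pt
  by_cases hy : y = 0
  · rw [if_pos hy, if_pos hy]; rfl
  · rw [if_neg hy, if_neg hy, tr_coe]
    congr 1
    field_simp

/-- the inverse translation -/
def TR.inv (a : TR) : TR := ⟨-a.t⟩

theorem TR.inv_smul_smul (a : TR) (x : Sph) : a.inv • a • x = x := by
  rw [← mul_smul]
  have : a.inv * a = 1 := by
    ext
    rw [TR.mul_t, TR.one_t]
    exact neg_add_cancel a.t
  rw [this, one_smul]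

theorem lift_tr (a : TR) : Lift (fun x : Sph => a • x) := by
  refine ⟨fun v => v.1 + a.t * v.2, fun v => v.2, by fun_prop, by fun_prop, ?_, ?_⟩
  · intro v hv
    rw [Pool.Agent.H76.Fatou.ne_zero_iff] at hv
    by_cases h2 : v.2 = 0
    · left
      show v.1 + a.t * v.2 ≠ 0
      rw [h2, mul_zero, add_zero]
      rcases hv with h | h
      · exact h
      · exact absurd h2 h
    · exact Or.inr h2
  · intro v _
    exact tr_pt a v.1 v.2

/-- norm after a translation by at most one -/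
theorem nn_tr {a : ℂ} (ha : ‖a‖ ≤ 1) (x y : ℂ) : nn x y ≤ 2 * nn (x + a * y) y := by
  unfold nn
  have h1 : ‖x‖ ≤ ‖x + a * y‖ + ‖y‖ := by
    have h2 : x = (x + a * y) - a * y := by ring
    calc ‖x‖ = ‖(x + a * y) - a * y‖ := by rw [← h2]
      _ ≤ ‖x + a * y‖ + ‖a * y‖ := norm_sub_le _ _
      _ ≤ ‖x + a * y‖ + ‖y‖ := by
          rw [norm_mul]
          nlinarith [norm_nonneg y]
  apply Real.sqrt_le_iff.2
  constructor
  · positivity
  · rw [mul_pow, Real.sq_sqrt (by positivity)]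
    nlinarith [norm_nonneg x, norm_nonneg y, norm_nonneg (x + a * y),
      sq_nonneg (‖x + a * y‖ - ‖y‖)]

theorem tr_lip {a : TR} (ha : ‖a.t‖ ≤ 1) (x y : Sph) : dist (a • x) (a • y) ≤ 4 * dist x y := by
  obtain ⟨v, hv, rfl⟩ := Pool.Agent.H76.Fatou.exists_pt x
  obtain ⟨w, hw, rfl⟩ := Pool.Agent.H76.Fatou.exists_pt y
  have hv' := Pool.Agent.H76.Fatou.ne_zero_iff.1 hv
  have hw' := Pool.Agent.H76.Fatou.ne_zero_iff.1 hw
  have hne : ∀ u : ℂ × ℂ, (u.1 ≠ 0 ∨ u.2 ≠ 0) → (u.1 + a.t * u.2 ≠ 0 ∨ u.2 ≠ 0) := by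
    intro u hu
    by_cases h2 : u.2 = 0
    · left
      rw [h2, mul_zero, add_zero]
      rcases hu with h | h
      · exact h
      · exact absurd h2 h
    · exact Or.inr h2
  rw [tr_pt, tr_pt, dist_eq_chord, dist_eq_chord, chord_pt (hne v hv') (hne w hw'),
    chord_pt hv' hw']
  have e1 : (v.1 + a.t * v.2) * w.2 - (w.1 + a.t * w.2) * v.2 = v.1 * w.2 - w.1 * v.2 := by ring
  rw [e1]
  have p1 := nn_pos hv'
  have p2 := nn_pos hw'
  have p3 := nn_pos (hne v hv')
  have p4 := nn_pos (hne w hw')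
  have q1 := nn_tr ha v.1 v.2
  have q2 := nn_tr ha w.1 w.2
  rw [← mul_div_assoc, div_le_div_iff₀ (by positivity) (by positivity)]
  have h5 : nn v.1 v.2 * nn w.1 w.2 ≤
      4 * (nn (v.1 + a.t * v.2) v.2 * nn (w.1 + a.t * w.2) w.2) := by
    calc nn v.1 v.2 * nn w.1 w.2 ≤
        (2 * nn (v.1 + a.t * v.2) v.2) * (2 * nn (w.1 + a.t * w.2) w.2) := by gcongr
      _ = _ := by ring
  calc ‖v.1 * w.2 - w.1 * v.2‖ * (nn v.1 v.2 * nn w.1 w.2) ≤
      ‖v.1 * w.2 - w.1 * v.2‖ * (4 * (nn (v.1 + a.t * v.2) v.2 * nn (w.1 + a.t * w.2) w.2)) := by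
        gcongr
    _ = _ := by ring

theorem tr_infty_le {a : TR} (ha : ‖a.t‖ ≤ 1) (x : Sph) : dist (a • x) ∞ ≤ 2 * dist x ∞ := by
  induction x using OnePoint.rec with
  | infty => rw [tr_infty, dist_self]; simp
  | coe z =>
    rw [tr_coe, dist_coe_infty, dist_coe_infty]
    have h1 := nn_tr ha z 1
    rw [mul_one] at h1
    have p1 : 0 < nn z 1 := nn_pos (Or.inr one_ne_zero)
    have p2 : 0 < nn (z + a.t) 1 := nn_pos (Or.inr one_ne_zero)
    rw [mul_one_div, div_le_div_iff₀ p2 p1]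
    linarith

theorem tr_dist (a b : TR) (x : Sph) : dist (a • x) (b • x) ≤ ‖a.t - b.t‖ := by
  induction x using OnePoint.rec with
  | infty => rw [tr_infty, tr_infty, dist_self]; exact norm_nonneg _
  | coe z =>
    rw [tr_coe, tr_coe]
    refine (dist_coe_le _ _).trans (le_of_eq ?_)
    congr 1
    ring

/-- a finite point at distance at least `r` from infinity -/
theorem nn_le {z : ℂ} {r : ℝ} (hr : 0 < r) (h : r ≤ dist (z : Sph) ∞) : nn z 1 ≤ 1 / r := by
  rw [dist_coe_infty] at h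
  have p1 : 0 < nn z 1 := nn_pos (Or.inr one_ne_zero)
  rw [le_div_iff₀ p1] at h
  rw [le_div_iff₀ hr]
  linarith

/-- local transitivity away from infinity -/
theorem tr_exists {r : ℝ} (hr : 0 < r) {x y : Sph} (hx : r ≤ dist x ∞) (hy : r ≤ dist y ∞) :
    ∃ a : TR, a • x = y ∧ ‖a.t‖ ≤ dist x y / r ^ 2 := by
  induction x using OnePoint.rec with
  | infty => rw [dist_self] at hx; linarith
  | coe z =>
    induction y using OnePoint.rec with
    | infty => rw [dist_self] at hy; linarith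
    | coe w =>
      refine ⟨⟨w - z⟩, ?_, ?_⟩
      · rw [tr_coe]; congr 1; ring
      · have p1 : 0 < nn z 1 := nn_pos (Or.inr one_ne_zero)
        have p2 : 0 < nn w 1 := nn_pos (Or.inr one_ne_zero)
        have q1 := nn_le hr hx
        have q2 := nn_le hr hy
        have h1 : ‖w - z‖ = dist (z : Sph) (w : Sph) * (nn z 1 * nn w 1) := by
          rw [dist_coe, norm_sub_rev, div_mul_cancel₀ _ (by positivity)]
        show ‖w - z‖ ≤ _
        rw [h1, div_eq_mul_one_div (dist _ _)]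
        apply mul_le_mul_of_nonneg_left _ dist_nonneg
        calc nn z 1 * nn w 1 ≤ 1 / r * (1 / r) := by gcongr
          _ = 1 / r ^ 2 := by rw [pow_two]; field_simp

end Pool.Agent.H35.UP
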