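import Mathlib
import Pool.Agent.H35.UP.Tr
import Pool.Agent.H35.UP.SegG
import Pool.Agent.H84.UC.LCS

/-!
# Steer to infinity by small translations, or contract
-/

set_option autoImplicit false

open Filter Topology OnePoint
open Pool.Agent.H44.Fatou
open Pool.Agent.H84.UC
open Pool.Agent.H76.Fatou (Lift)

namespace Pool.Agent.H35.UP

/-- a finite net of a disc -/
theorem disc_net {ε τ : ℝ} (hε : 0 < ε) (hτ : 0 < τ) : ∃ (n : ℕ) (γ : Fin n → TR), 0 < n ∧
    (∀ i, ‖(γ i).t‖ ≤ ε) ∧ ∀ a : TR, ‖a.t‖ ≤ ε → ∃ i, ‖(γ i).t - a.t‖ ≤ τ := by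
  obtain ⟨s, hs, hcov⟩ := (isCompact_closedBall (0 : ℂ) ε).elim_nhds_subcover
    (fun z => Metric.ball z τ) (fun z _ => Metric.ball_mem_nhds z hτ)
  have hne : 0 < s.card := by
    have h0 : (0 : ℂ) ∈ Metric.closedBall (0 : ℂ) ε := Metric.mem_closedBall_self hε.le
    obtain ⟨z, hz, -⟩ := Set.mem_iUnion₂.1 (hcov h0)
    exact Finset.card_pos.2 ⟨z, hz⟩
  refine ⟨s.card, fun i => ⟨(s.equivFin.symm i : ℂ)⟩, hne, fun i => ?_, fun a ha => ?_⟩
  · have := hs _ (s.equivFin.symm i).2
    exact mem_closedBall_zero_iff.1 this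
  · obtain ⟨z, hz, haz⟩ := Set.mem_iUnion₂.1 (hcov (mem_closedBall_zero_iff.2 ha))
    refine ⟨s.equivFin ⟨z, hz⟩, ?_⟩
    show ‖((s.equivFin.symm (s.equivFin ⟨z, hz⟩) : s) : ℂ) - a.t‖ ≤ τ
    rw [Equiv.symm_apply_apply, norm_sub_rev]
    exact (mem_ball_iff_norm.1 haz).le

theorem blockP (L r ε : ℝ) (hL : 1 ≤ L) (hr : 0 < r) (hε : 0 < ε) :
    ∃ J : ℕ, 1 ≤ J ∧ ∃ (n : ℕ) (γ : Fin n → TR), 0 < n ∧ (∀ i, ‖(γ i).t‖ < ε) ∧
      ∃ ρL : ℝ, 0 < ρL ∧ ∀ h : ℕ → Sph → Sph, (∀ k, Lift (h k)) →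
        Sys h (fun _ => (∞ : Sph)) {a : TR | ‖a.t‖ < ε} L r →
        Blk γ h (fun _ => (∞ : Sph)) r ρL J := by
  set δ : ℝ := min (r / 8) (ε / 2 * (r / 4) ^ 2) with hδ
  have hδ0 : 0 < δ := lt_min (by positivity) (by positivity)
  have hδr : δ ≤ r / 8 := min_le_left _ _
  have hδε : δ ≤ ε / 2 * (r / 4) ^ 2 := min_le_right _ _
  obtain ⟨ρ0, hρ0, C, hC, l, hl0, hl1, hest⟩ := lc_lift L δ (r / 2) hL hδ0 (by positivity)
  have hC0 : 0 < C := by linarith
  obtain ⟨n0, hn0⟩ := exists_pow_lt_of_lt_one (show 0 < 1 / (2 * C) by positivity) hl1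
  set J : ℕ := n0 + 1 with hJ
  have hCl : C * l ^ J ≤ 1 / 2 := by
    have h1 : l ^ J ≤ l ^ n0 := pow_le_pow_of_le_one hl0.le hl1.le (Nat.le_succ n0)
    have h2 : l ^ J < 1 / (2 * C) := lt_of_le_of_lt h1 hn0
    have h3 : C * l ^ J < C * (1 / (2 * C)) := mul_lt_mul_of_pos_left h2 hC0
    have h4 : C * (1 / (2 * C)) = 1 / 2 := by field_simp
    linarith
  have hJpos : (0 : ℝ) < J := by exact_mod_cast Nat.succ_pos n0
  have hLJ : 0 < L ^ J := by positivity
  set τ : ℝ := r / (8 * J * L ^ J) with hτ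
  have hτpos : 0 < τ := by positivity
  have hτJ : J * L ^ J * τ = r / 8 := by
    rw [hτ]; field_simp
  obtain ⟨n, γ, hn, hγ1, hγ2⟩ := disc_net (show 0 < ε / 2 by positivity) hτpos
  have hγε : ∀ i, ‖(γ i).t‖ < ε := fun i => lt_of_le_of_lt (hγ1 i) (by linarith)
  refine ⟨J, Nat.succ_le_succ (Nat.zero_le _), n, γ, hn, hγε, ρ0, hρ0, ?_⟩
  intro h hH hS k y
  have hLip : ∀ k x y, dist (h k x) (h k y) ≤ L * dist x y := by
    intro k x y
    have := hS.lipK k 1 (by show ‖(1 : TR).t‖ < ε; simpa using hε) x y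
    rwa [one_smul, one_smul] at this
  by_cases hA : ∃ p : ℕ → Sph, p 0 = y ∧ (∀ j < J, dist (p (j + 1)) (h (k + j) (p j)) < δ) ∧
      ∃ j < J, dist (p (j + 1)) ∞ < r / 2
  · left
    obtain ⟨p, hp0, hp, hex⟩ := hA
    classical
    have hex' : ∃ j, j < J ∧ dist (p (j + 1)) ∞ < r / 2 := hex
    set j := Nat.find hex' with hjdef
    obtain ⟨hj, hpj⟩ := Nat.find_spec hex'
    rw [← hjdef] at hj hpj
    have hmin : ∀ i < j, r / 2 ≤ dist (p (i + 1)) ∞ := by
      intro i hi
      by_contra hc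
      push Not at hc
      exact Nat.find_min hex' hi ⟨by omega, hc⟩
    -- targets
    set q : ℕ → Sph := fun i => if i ≤ j then p i else h (k + j) (p j) with hq
    have hq0 : q 0 = y := by simp only [hq]; rw [if_pos (Nat.zero_le _), hp0]
    have hch : ∀ i : Fin J, ∃ v : Fin n, (i : ℕ) ≤ j →
        dist ((γ v) • h (k + i) (q i)) (q (i + 1)) ≤ τ := by
      intro i
      by_cases hij : (i : ℕ) < j
      · have e1 : q i = p i := if_pos hij.le
        have e2 : q (i + 1) = p (i + 1) := if_pos hij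
        have h1 := hmin i hij
        have h2 := hp i i.2
        have h3 : r / 4 ≤ dist (h (k + i) (p i)) ∞ := by
          have := dist_triangle (p (i + 1)) (h (k + i) (p i)) ∞
          linarith
        obtain ⟨a, ha1, ha2⟩ := tr_exists (show 0 < r / 4 by positivity) h3
          (show r / 4 ≤ dist (p (i + 1)) ∞ by linarith)
        have ha3 : ‖a.t‖ ≤ ε / 2 := by
          refine ha2.trans ?_
          rw [div_le_iff₀ (by positivity), dist_comm]
          exact h2.le.trans hδε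
        obtain ⟨v, hv⟩ := hγ2 a ha3
        refine ⟨v, fun _ => ?_⟩
        rw [e1, e2, ← ha1]
        exact (tr_dist _ _ _).trans hv
      · obtain ⟨v, hv⟩ := hγ2 1 (by rw [TR.one_t, norm_zero]; positivity)
        refine ⟨v, fun hle => ?_⟩
        have hij' : (i : ℕ) = j := le_antisymm hle (not_lt.1 hij)
        have e1 : q i = p j := by rw [hij']; exact if_pos le_rfl
        have e2 : q (i + 1) = h (k + j) (p j) := by
          rw [hij']; exact if_neg (by omega)
        rw [e1, e2, hij']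
        calc dist (γ v • h (k + j) (p j)) (h (k + j) (p j))
            = dist (γ v • h (k + j) (p j)) ((1 : TR) • h (k + j) (p j)) := by rw [one_smul]
          _ ≤ ‖(γ v).t - (1 : TR).t‖ := tr_dist _ _ _
          _ ≤ τ := hv
    choose u hu using hch
    set F : ℕ → Sph → Sph := fun j x => (if hj : j < J then γ (u ⟨j, hj⟩) else 1) •
      h (k + j) x with hF
    have hFi : ∀ i (hi : i < J) (x : Sph), F i x = γ (u ⟨i, hi⟩) • h (k + i) x := by
      intro i hi x
      simp only [hF]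
      rw [dif_pos hi]
    have hind : ∀ i ≤ j + 1, dist (cp F 0 i y) (q i) ≤ i * L ^ i * τ := by
      intro i
      induction i with
      | zero =>
        intro _
        rw [cp_zero, hq0, dist_self]
        simp
      | succ i ih =>
        intro hi
        have hi' : i < J := by omega
        have ih' := ih (by omega)
        rw [cp_succ, Nat.zero_add, hFi i hi']
        set a := γ (u ⟨i, hi'⟩) with ha
        have e1 : dist (a • h (k + i) (cp F 0 i y)) (a • h (k + i) (q i)) ≤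
            L * dist (cp F 0 i y) (q i) := hS.lipK _ _ (hγε _) _ _
        have e2 : dist (a • h (k + i) (q i)) (q (i + 1)) ≤ τ := hu ⟨i, hi'⟩ (by show i ≤ j; omega)
        have e3 := dist_triangle (a • h (k + i) (cp F 0 i y)) (a • h (k + i) (q i)) (q (i + 1))
        have e4 : L * dist (cp F 0 i y) (q i) ≤ L * (i * L ^ i * τ) :=
          mul_le_mul_of_nonneg_left ih' (by linarith)
        have e5 : τ ≤ L ^ (i + 1) * τ := by
          have : 1 ≤ L ^ (i + 1) := one_le_pow₀ hL
          nlinarith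
        have e6 : L * (i * L ^ i * τ) + L ^ (i + 1) * τ = ((i + 1 : ℕ) : ℝ) * L ^ (i + 1) * τ := by
          push_cast
          ring
        linarith
    have hstart : dist (cp F 0 (j + 1) y) ∞ ≤ 3 / 4 * r := by
      have e1 := hind (j + 1) le_rfl
      have e2 : ((j + 1 : ℕ) : ℝ) * L ^ (j + 1) * τ ≤ J * L ^ J * τ := by
        have hj1 : ((j + 1 : ℕ) : ℝ) ≤ J := by exact_mod_cast hj
        have hj2 : L ^ (j + 1) ≤ L ^ J := pow_le_pow_right₀ hL hj
        have hj3 : (0 : ℝ) ≤ L ^ (j + 1) := by positivity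
        apply mul_le_mul_of_nonneg_right _ hτpos.le
        exact mul_le_mul hj1 hj2 hj3 hJpos.le
      have e3 := dist_triangle (cp F 0 (j + 1) y) (q (j + 1)) ∞
      have e4 : q (j + 1) = h (k + j) (p j) := if_neg (by omega)
      rw [e4] at e1 e3
      have e5 := hp j hj
      have e6 := dist_triangle (h (k + j) (p j)) (p (j + 1)) ∞
      rw [dist_comm (h (k + j) (p j)) (p (j + 1))] at e6
      linarith
    have hall : ∀ m, j + 1 ≤ m → m ≤ J → dist (cp F 0 m y) ∞ ≤ 3 / 4 * r := by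
      intro m hm
      induction m, hm using Nat.le_induction with
      | base => intro _; exact hstart
      | succ m hm ih =>
        intro hmJ
        have hm' : m < J := hmJ
        rw [cp_succ, Nat.zero_add, hFi m hm']
        exact hS.stay (k + m) _ (hγε _) _ (by linarith) (by linarith) _ (ih hm'.le)
    exact ⟨u, hall J hj le_rfl⟩
  · right
    intro y' hy'
    have h1 := hest J (fun i => h (k + i)) (fun _ => (∞ : Sph)) y (fun i => hH _)
      (fun i => hLip _) ?_ y' hy'
    · rw [cp_shift h k 0 J y', cp_shift h k 0 J y, Nat.add_zero] at h1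
      have h2 : C * l ^ J * dist y' y ≤ 1 / 2 * dist y' y :=
        mul_le_mul_of_nonneg_right hCl dist_nonneg
      linarith
    · intro p hp0 hp i hi
      by_contra hc
      push Not at hc
      exact hA ⟨p, hp0, hp, i, hi, hc⟩

end Pool.Agent.H35.UP
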