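import Mathlib
import Pool.Agent.H35.UP.Block
import Pool.Agent.H35.UP.WinG
import Pool.Agent.H84.UC.Transfer

/-!
# Words of liftable maps fixing infinity, rare small translations (compare H84/UC/Global)
-/

set_option autoImplicit false

open Filter Topology OnePoint
open Pool.Agent.H44.Fatou
open Pool.Agent.H84.UC
open Pool.Agent.H76.Fatou (Lift)

namespace Pool.Agent.H35.UP

theorem kick_one (F : ℕ → Sph → Sph) : kick (fun _ => (1 : TR)) F = F := by
  funext t x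
  simp [kick]

theorem cp_half {f : ℕ → Sph → Sph} {r : ℝ}
    (hhalf : ∀ i x, dist x ∞ ≤ r → dist (f i x) ∞ ≤ dist x ∞ / 2) (s : ℕ) (y : Sph)
    (hy : dist y ∞ ≤ r) (l : ℕ) : dist (cp f s (l + 1) y) ∞ ≤ dist y ∞ / 2 := by
  have h0 : 0 ≤ dist y ∞ := dist_nonneg
  induction l with
  | zero => exact hhalf (s + 0) y hy
  | succ l ih =>
    rw [cp_succ]
    have h1 := hhalf (s + (l + 1)) (cp f s (l + 1) y) (by linarith)
    have h2 : 0 ≤ dist (cp f s (l + 1) y) ∞ := dist_nonneg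
    linarith

theorem cp_fix {f : ℕ → Sph → Sph} (hinf : ∀ i, f i ∞ = ∞) (s l : ℕ) : cp f s l ∞ = ∞ := by
  induction l with
  | zero => rfl
  | succ l ih => rw [cp_succ, ih, hinf]

theorem cp_lift {f : ℕ → Sph → Sph} (hf : ∀ i, Lift (f i)) (s l : ℕ) : Lift (cp f s l) := by
  induction l with
  | zero => exact Lift.id
  | succ l ih => exact (hf (s + l)).comp ih

theorem abstract_tr {ι : Type} (f : ι → Sph → Sph) (hf : ∀ i, Lift (f i)) (L : ℝ) (hL1 : 1 ≤ L)
    (hL : ∀ i x y, dist (f i x) (f i y) ≤ L * dist x y) (r : ℝ) (hr : 0 < r)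
    (hinf : ∀ i, f i ∞ = ∞) (hhalf : ∀ i x, dist x ∞ ≤ r → dist (f i x) ∞ ≤ dist x ∞ / 2)
    (W : ι → Finset Sph) (B : ℕ) (hW : ∀ i, (W i).card ≤ B)
    (ε : ℝ) (hε : 0 < ε) (hε1 : ε ≤ 1) (ρmax : ℝ) (hρ : 0 < ρmax) (M : ℕ) (hM : 1 ≤ M) :
    ∃ N : ℕ, ∀ n ≥ N, ∀ w : ℕ → ι, ∃ A : ℕ → TR, (∀ t, ‖(A t).t‖ < ε) ∧
      M * {t : ℕ | t < n ∧ A t ≠ 1}.ncard ≤ n ∧
      ∃ (Z : Finset Sph) (ρ : ℝ), 0 < ρ ∧ ρ ≤ ρmax ∧
        (∀ z ∈ Z, ∃ z' ∈ Z, ∀ x, dist x z ≤ ρ →
          dist (cp (kick A (fun t => f (w t))) 0 n x) z' < ρ) ∧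
        (∀ t < n, ∀ v ∈ W (w t), ∃ z ∈ Z,
          dist (cp (kick A (fun t => f (w t))) 0 n
            (cp (kick A (fun t => f (w t))) (t + 1) (n - (t + 1)) (A t • v))) z < ρ) := by
  classical
  set L2 : ℝ := 4 * L ^ (M + 1) with hL2
  have hL21 : 1 ≤ L2 := by
    have : 1 ≤ L ^ (M + 1) := one_le_pow₀ hL1
    linarith
  obtain ⟨J, hJ, n₁, γ, hn₁, hγ, ρL, hρL, hblk⟩ := blockP L2 r ε hL21 hr hε
  have h1𝒢 : (1 : TR) ∈ {a : TR | ‖a.t‖ < ε} := by
    show ‖(1 : TR).t‖ < ε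
    simpa using hε
  obtain ⟨Lw, ρ, hLw, hρ0, hρ1, hwm⟩ := win_mainG (S := Sph) {a : TR | ‖a.t‖ < ε} h1𝒢 L2 r ρL ρmax
    hL21 hr hρL hρ J n₁ hJ hn₁ γ hγ (B * (M + 1))
  refine ⟨Lw * M * (M + 2), fun n hn w => ?_⟩
  have hLT : 0 < Lw * M := Nat.mul_pos hLw hM
  obtain ⟨m, hm⟩ : ∃ m, m = n / (Lw * M) := ⟨_, rfl⟩
  obtain ⟨u, hu⟩ : ∃ u, u = n % (Lw * M) := ⟨_, rfl⟩
  have hmT : M + 2 ≤ m := by
    rw [hm, Nat.le_div_iff_mul_le hLT]
    calc (M + 2) * (Lw * M) = Lw * M * (M + 2) := by ring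
      _ ≤ n := hn
  have hu1 : u < Lw * M := by
    rw [hu]
    exact Nat.mod_lt _ hLT
  have hn1 : n = M * (m * Lw) + u := by
    have h1 := Nat.div_add_mod n (Lw * M)
    rw [← hm, ← hu] at h1
    rw [← h1]
    ring
  have hu2 : u ≤ m * Lw := by
    have h1 : Lw * M ≤ Lw * m := Nat.mul_le_mul_left _ (by omega)
    have h2 : Lw * m = m * Lw := Nat.mul_comm _ _
    omega
  obtain ⟨τ, hτ⟩ : ∃ τ : ℕ → ℕ, ∀ k, τ k = M * k + min k u := ⟨fun k => M * k + min k u, fun _ => rfl⟩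
  have hτ0 : τ 0 = 0 := by
    rw [hτ]
    simp
  have hτs : ∀ k, τ (k + 1) = τ k + M ∨ τ (k + 1) = τ k + (M + 1) := by
    intro k
    rw [hτ, hτ, Nat.mul_add, Nat.mul_one]
    rcases Nat.lt_or_ge k u with h | h
    · right
      rw [min_eq_left (by omega : k + 1 ≤ u), min_eq_left (by omega : k ≤ u)]
      omega
    · left
      rw [min_eq_right (by omega : u ≤ k + 1), min_eq_right h]
      omega
  have hτm : StrictMono τ := by
    apply strictMono_nat_of_lt_succ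
    intro k
    rcases hτs k with h | h <;> omega
  have hτd : ∀ k, τ (k + 1) - τ k = M ∨ τ (k + 1) - τ k = M + 1 := by
    intro k
    rcases hτs k with h | h <;> omega
  have hτn : τ (m * Lw) = n := by
    rw [hτ, min_eq_right hu2, hn1]
  obtain ⟨h, hh⟩ : ∃ h : ℕ → Sph → Sph, ∀ k, h k =
      cp (fun t => f (w (τ k + t))) 0 (τ (k + 1) - τ k) := ⟨_, fun _ => rfl⟩
  have hhH : ∀ k, Lift (h k) := by
    intro k
    rw [hh]
    exact cp_lift (fun t => hf _) _ _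
  have hhL : ∀ k x y, dist (h k x) (h k y) ≤ L ^ (M + 1) * dist x y := by
    intro k x y
    rw [hh]
    have h1 := cp_lip (g := fun t => f (w (τ k + t))) (L := L)
      (by linarith) (s := 0) (k := τ (k + 1) - τ k) (fun i _ x y => hL _ _ _) x y
    refine h1.trans ?_
    apply mul_le_mul_of_nonneg_right _ dist_nonneg
    apply pow_le_pow_right₀ hL1
    rcases hτd k with h | h <;> omega
  have hhinf : ∀ k, h k ∞ = ∞ := by
    intro k
    rw [hh]
    exact cp_fix (fun t => hinf _) _ _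
  have hhhalf : ∀ k y, dist y ∞ ≤ r → dist (h k y) ∞ ≤ dist y ∞ / 2 := by
    intro k y hy
    obtain ⟨l, hl⟩ : ∃ l, τ (k + 1) - τ k = l + 1 := ⟨τ (k + 1) - τ k - 1, by
      rcases hτd k with h | h <;> omega⟩
    rw [hh, hl]
    exact cp_half (fun t x hx => hhalf _ x hx) 0 y hy l
  have hSys : Sys h (fun _ => (∞ : Sph)) {a : TR | ‖a.t‖ < ε} L2 r := by
    refine ⟨?_, ?_, ?_⟩
    · intro k a ha x y
      have ha1 : ‖a.t‖ ≤ 1 := (le_of_lt ha).trans hε1
      refine (tr_lip ha1 _ _).trans ?_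
      rw [hL2, mul_assoc]
      exact mul_le_mul_of_nonneg_left (hhL k x y) (by norm_num)
    · intro k a ha ρ' _ h2 y hy
      have ha1 : ‖a.t‖ ≤ 1 := (le_of_lt ha).trans hε1
      have e1 := tr_infty_le ha1 (h k y)
      have e2 := hhhalf k y (hy.trans h2)
      show dist (a • h k y) ∞ ≤ ρ'
      have e3 : dist y ∞ ≤ ρ' := hy
      linarith
    · intro k
      exact ⟨hhinf k, fun y hy => hhhalf k y hy⟩
  obtain ⟨births, hbirths⟩ : ∃ births : ℕ → Finset Sph, ∀ k, births k =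
      (Finset.range (τ (k + 1) - τ k)).biUnion (fun t' => (W (w (τ k + t'))).image (fun v =>
        cp (fun t => f (w (τ k + t))) (t' + 1) (τ (k + 1) - τ k - (t' + 1)) v)) :=
    ⟨_, fun _ => rfl⟩
  have hbc : ∀ k, (births k).card ≤ B * (M + 1) := by
    intro k
    rw [hbirths]
    refine Finset.card_biUnion_le.trans ?_
    calc _ ≤ ∑ _t ∈ Finset.range (τ (k + 1) - τ k), B := by
          apply Finset.sum_le_sum
          intro t' _
          exact Finset.card_image_le.trans (hW _)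
      _ = (τ (k + 1) - τ k) * B := by
          rw [Finset.sum_const, Finset.card_range, smul_eq_mul]
      _ ≤ (M + 1) * B := by
          apply Nat.mul_le_mul_right
          rcases hτd k with h | h <;> omega
      _ = B * (M + 1) := Nat.mul_comm _ _
  obtain ⟨R, hR, Z, hZ1, hZ2⟩ := hwm m (by omega) h (fun _ => (∞ : Sph)) hSys (hblk h hhH hSys)
    births hbc
  obtain ⟨A, hA1, hA2, hA3⟩ := transfer (fun t => f (w t)) τ hτ0 hτm (fun _ _ => (1 : TR)) R h
    (fun k => by rw [kick_one, hh])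
  refine ⟨A, ?_, ?_, Z, ρ, hρ0, hρ1, ?_, ?_⟩
  · intro t
    obtain ⟨k, t', _, _, hAt⟩ := hA1 t
    rw [hAt, mul_one]
    split_ifs
    · exact hR k
    · exact h1𝒢
  · have hsub : {t : ℕ | t < n ∧ A t ≠ 1} ⊆
        ((Finset.range (m * Lw)).image (fun k => τ (k + 1) - 1) : Finset ℕ) := by
      rintro t ⟨ht1, ht2⟩
      obtain ⟨k, t', h1, h2, h3⟩ := hA1 t
      have h4 : t + 1 = τ (k + 1) := by
        by_contra h4
        rw [if_neg h4, mul_one] at h3
        exact ht2 h3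
      have h5 : k + 1 ≤ m * Lw := by
        rw [← hτm.le_iff_le, hτn]
        omega
      simp only [Finset.coe_image, Set.mem_image, Finset.mem_coe, Finset.mem_range]
      exact ⟨k, by omega, by omega⟩
    have hcard : {t : ℕ | t < n ∧ A t ≠ 1}.ncard ≤ m * Lw := by
      refine (Set.ncard_le_ncard hsub (Finset.finite_toSet _)).trans ?_
      rw [Set.ncard_coe_finset]
      refine Finset.card_image_le.trans ?_
      rw [Finset.card_range]
    calc M * {t : ℕ | t < n ∧ A t ≠ 1}.ncard ≤ M * (m * Lw) := Nat.mul_le_mul_left _ hcard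
      _ ≤ n := by omega
  · intro z hz
    obtain ⟨z', hz', h1⟩ := hZ1 z hz
    refine ⟨z', hz', fun x hx => ?_⟩
    have h2 := hA2 (m * Lw) x
    rw [hτn] at h2
    rw [h2]
    exact h1 x hx
  · intro t ht v hv
    obtain ⟨k, t', ht', hteq, _⟩ := hA1 t
    have hk : k < m * Lw := by
      rw [← hτm.lt_iff_lt, hτn]
      omega
    obtain ⟨z, hz, h1⟩ := hZ2 k hk
      (cp (fun t => f (w (τ k + t))) (t' + 1) (τ (k + 1) - τ k - (t' + 1)) v) (by
        rw [hbirths, Finset.mem_biUnion]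
        refine ⟨t', Finset.mem_range.2 ht', ?_⟩
        apply Finset.mem_image_of_mem
        rw [← hteq]
        exact hv)
    refine ⟨z, hz, ?_⟩
    have h2 := hA3 (m * Lw) k t' hk ht' v
    rw [hτn, ← hteq, one_smul, kick_one] at h2
    rw [h2]
    have h3 := hA2 (m * Lw) (cp (kick R h) (k + 1) (m * Lw - (k + 1)) (R k •
            cp (fun t => f (w (τ k + t))) (t' + 1) (τ (k + 1) - τ k - (t' + 1)) v))
    rw [hτn] at h3
    rw [h3]
    exact h1

end Pool.Agent.H35.UP
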