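import Mathlib
import Pool.Agent.H35.UP.Words
import Pool.Agent.H84.UC.RatU
import Pool.Agent.H84.UC.CvU
import Pool.Agent.H84.UC.Sink

/-!
# Compositions of polynomials with small rare translations: all words
-/

set_option autoImplicit false

open Filter Topology OnePoint Polynomial
open Pool.Agent.H44.Fatou
open Pool.Agent.H84.UC
open Pool.Agent.H76.Fatou (Lift)
open Pool.Agent.H35.NA (Attr)

namespace Pool.Agent.H35.UP

/-- polynomials of degree between `2` and `d`, coefficients bounded by `B`, leading coefficient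
bounded below by `1 / B` -/
def Adm (d : ℕ) (B : ℝ) (P : Polynomial ℂ) : Prop :=
  2 ≤ P.natDegree ∧ P.natDegree ≤ d ∧ (∀ i, ‖P.coeff i‖ ≤ B) ∧ 1 / B ≤ ‖P.leadingCoeff‖

theorem rat_one (P : Polynomial ℂ) (z : ℂ) : rat P 1 (z : Sph) = ((P.eval z : ℂ) : Sph) := by
  rw [rat_coe]
  unfold pt
  simp

theorem rat_one_infty {P : Polynomial ℂ} (hP : 1 ≤ P.natDegree) : rat P 1 (∞ : Sph) = ∞ := by
  have hdg : 1 ≤ dg P 1 := hP.trans (le_max_left _ _)
  rw [rat_infty]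
  unfold pt
  rw [if_pos]
  rw [Polynomial.coeff_one, if_neg (by omega)]

/-- growth near infinity -/
theorem growth {d : ℕ} {B : ℝ} (hB : 1 ≤ B) {P : Polynomial ℂ} (hP : Adm d B P) {z : ℂ}
    (hz : B * (B * d + 4) ≤ ‖z‖) : 4 * ‖z‖ ≤ ‖P.eval z‖ := by
  obtain ⟨h2, hd, hco, hlc⟩ := hP
  obtain ⟨e, he⟩ : ∃ e, P.natDegree = e + 2 := ⟨P.natDegree - 2, by omega⟩
  have hB0 : 0 < B := by linarith
  have hz1 : 1 ≤ ‖z‖ := by
    have : (0 : ℝ) ≤ d := Nat.cast_nonneg d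
    nlinarith [mul_nonneg hB0.le this, mul_nonneg (mul_nonneg hB0.le hB0.le) this]
  have h3 : P.eval z = ∑ i ∈ Finset.range (e + 2), P.coeff i * z ^ i +
      P.coeff (e + 2) * z ^ (e + 2) := by
    rw [Polynomial.eval_eq_sum_range' (show P.natDegree < e + 2 + 1 by omega),
      Finset.sum_range_succ]
  have h4 : ‖∑ i ∈ Finset.range (e + 2), P.coeff i * z ^ i‖ ≤ B * d * ‖z‖ ^ (e + 1) := by
    calc _ ≤ ∑ i ∈ Finset.range (e + 2), B * ‖z‖ ^ (e + 1) := by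
          refine norm_sum_le_of_le _ (fun i hi => ?_)
          rw [norm_mul, norm_pow]
          have hi' : i ≤ e + 1 := by
            have := Finset.mem_range.1 hi
            omega
          exact mul_le_mul (hco i) (pow_le_pow_right₀ hz1 hi') (by positivity) hB0.le
      _ = (e + 2 : ℕ) * (B * ‖z‖ ^ (e + 1)) := by
          rw [Finset.sum_const, Finset.card_range, nsmul_eq_mul]
      _ ≤ d * (B * ‖z‖ ^ (e + 1)) := by
          apply mul_le_mul_of_nonneg_right _ (by positivity)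
          exact_mod_cast (by omega : e + 2 ≤ d)
      _ = B * d * ‖z‖ ^ (e + 1) := by ring
  have h5 : 1 / B * ‖z‖ ^ (e + 2) ≤ ‖P.coeff (e + 2) * z ^ (e + 2)‖ := by
    rw [norm_mul, norm_pow]
    have : P.coeff (e + 2) = P.leadingCoeff := by rw [Polynomial.leadingCoeff, he]
    rw [this]
    gcongr
  have h6 : ‖P.coeff (e + 2) * z ^ (e + 2)‖ ≤ ‖P.eval z‖ +
      ‖∑ i ∈ Finset.range (e + 2), P.coeff i * z ^ i‖ := by
    have h7 : P.coeff (e + 2) * z ^ (e + 2) = P.eval z -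
      ∑ i ∈ Finset.range (e + 2), P.coeff i * z ^ i := by rw [h3]; ring
    rw [h7]
    exact norm_sub_le _ _
  have h8 : B * d + 4 ≤ 1 / B * ‖z‖ := by
    rw [div_mul_eq_mul_div, one_mul, le_div_iff₀ hB0]
    linarith
  have h9 : 4 * ‖z‖ ^ (e + 1) ≤ ‖P.eval z‖ := by
    have h10 : (B * d + 4) * ‖z‖ ^ (e + 1) ≤ 1 / B * ‖z‖ * ‖z‖ ^ (e + 1) := by gcongr
    have h11 : 1 / B * ‖z‖ * ‖z‖ ^ (e + 1) = 1 / B * ‖z‖ ^ (e + 2) := by ring
    linarith
  have h12 : ‖z‖ ≤ ‖z‖ ^ (e + 1) := by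
    calc ‖z‖ = ‖z‖ ^ 1 := (pow_one _).symm
      _ ≤ ‖z‖ ^ (e + 1) := pow_le_pow_right₀ hz1 (by omega)
  linarith

theorem nn_le_add (z : ℂ) : Pool.Agent.H91.Fatou.nn z 1 ≤ ‖z‖ + 1 := by
  unfold Pool.Agent.H91.Fatou.nn
  rw [norm_one, one_pow]
  apply Real.sqrt_le_iff.2
  constructor
  · positivity
  · nlinarith [norm_nonneg z]

theorem half {d : ℕ} {B : ℝ} (hB : 1 ≤ B) {P : Polynomial ℂ} (hP : Adm d B P) {x : Sph}
    (hx : dist x ∞ ≤ 1 / (B * (B * d + 4) + 1)) : dist (rat P 1 x) ∞ ≤ dist x ∞ / 2 := by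
  have hB0 : 0 < B := by linarith
  have hR : 0 < B * (B * d + 4) + 1 := by positivity
  induction x using OnePoint.rec with
  | infty =>
    rw [rat_one_infty (by have := hP.1; omega), dist_self]
    simp
  | coe z =>
    have p1 : 0 < Pool.Agent.H91.Fatou.nn z 1 :=
      Pool.Agent.H91.Fatou.nn_pos (Or.inr one_ne_zero)
    have h1 : B * (B * d + 4) ≤ ‖z‖ := by
      rw [dist_coe_infty, div_le_div_iff₀ p1 hR, one_mul, one_mul] at hx
      have := nn_le_add z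
      linarith
    have h2 := growth hB hP h1
    have hz1 : 1 ≤ ‖z‖ := by
      have : (0 : ℝ) ≤ d := Nat.cast_nonneg d
      nlinarith [mul_nonneg hB0.le this, mul_nonneg (mul_nonneg hB0.le hB0.le) this]
    have p2 : 0 < Pool.Agent.H91.Fatou.nn (P.eval z) 1 :=
      Pool.Agent.H91.Fatou.nn_pos (Or.inr one_ne_zero)
    have h3 : 2 * Pool.Agent.H91.Fatou.nn z 1 ≤ Pool.Agent.H91.Fatou.nn (P.eval z) 1 := by
      unfold Pool.Agent.H91.Fatou.nn
      rw [norm_one, one_pow]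
      apply Real.le_sqrt_of_sq_le
      rw [mul_pow, Real.sq_sqrt (by positivity)]
      nlinarith [norm_nonneg z]
    rw [rat_one, dist_coe_infty, dist_coe_infty, div_div, div_le_div_iff₀ p2 (by positivity)]
    linarith

theorem pvc {d : ℕ} {P : Polynomial ℂ} (hP : P.natDegree ≤ d) :
    pv (fun i : Fin (d + 1) => P.coeff i) = P := by
  ext i
  rw [pv_coeff]
  split_ifs with h
  · rfl
  · exact (coeff_eq_zero_of_natDegree_lt (by omega)).symm

/-- uniform Lipschitz constant in one degree -/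
theorem lip_deg {e : ℕ} (he : 2 ≤ e) {B : ℝ} (hB : 1 ≤ B) : ∃ L : ℝ, 1 ≤ L ∧
    ∀ P : Polynomial ℂ, P.natDegree = e → (∀ i, ‖P.coeff i‖ ≤ B) → 1 / B ≤ ‖P.leadingCoeff‖ →
      ∀ x y : Sph, dist (rat P 1 x) (rat P 1 y) ≤ L * dist x y := by
  set 𝒦₁ : Set (Fin (e + 1) → ℂ) := Metric.closedBall 0 B ∩ {p | 1 / B ≤ ‖p (Fin.last e)‖} with h𝒦₁
  have hc1 : IsCompact 𝒦₁ := by
    apply (isCompact_closedBall _ _).inter_right
    exact isClosed_le continuous_const (by fun_prop)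
  set o : Fin (e + 1) → ℂ := fun i => (1 : Polynomial ℂ).coeff i with ho
  have hpo : pv o = 1 := pvc (by simp)
  have hc2 : IsCompact (𝒦₁ ×ˢ ({o} : Set (Fin (e + 1) → ℂ))) := hc1.prod isCompact_singleton
  have hB0 : 0 < B := by linarith
  have hdeg : ∀ p ∈ 𝒦₁, (pv p).natDegree = e := by
    intro p hp
    apply le_antisymm (pv_natDegree p)
    apply Polynomial.le_natDegree_of_ne_zero
    rw [pv_coeff, dif_pos (by omega)]
    intro h0
    have h1 : 1 / B ≤ ‖p (Fin.last e)‖ := hp.2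
    have h2 : p (Fin.last e) = 0 := h0
    rw [h2, norm_zero] at h1
    have : 0 < 1 / B := by positivity
    linarith
  obtain ⟨L, hL1, hL, -⟩ := rat_unif he hc2 (by
    rintro ⟨p, q⟩ ⟨hp, hq⟩
    have hq' : q = o := hq
    subst hq'
    show IsCoprime (pv p) (pv o) ∧ max (pv p).natDegree (pv o).natDegree = e
    rw [hpo, hdeg p hp]
    exact ⟨isCoprime_one_right, by simp⟩)
  refine ⟨L, hL1, fun P hP hco hlc x y => ?_⟩
  have hmem : ((fun i : Fin (e + 1) => P.coeff i), o) ∈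
      𝒦₁ ×ˢ ({o} : Set (Fin (e + 1) → ℂ)) := by
    refine ⟨⟨?_, ?_⟩, rfl⟩
    · rw [mem_closedBall_zero_iff, pi_norm_le_iff_of_nonneg hB0.le]
      exact fun i => hco i
    · show 1 / B ≤ ‖P.coeff ((Fin.last e : Fin (e + 1)) : ℕ)‖
      rw [Fin.val_last, ← hP]
      exact hlc
  have h1 := hL _ hmem x y
  simp only [hpo, pvc hP.le] at h1
  exact h1

theorem lip_all (d : ℕ) {B : ℝ} (hB : 1 ≤ B) : ∃ L : ℝ, 1 ≤ L ∧
    ∀ P : Polynomial ℂ, Adm d B P → ∀ x y : Sph,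
      dist (rat P 1 x) (rat P 1 y) ≤ L * dist x y := by
  have h : ∀ e : ℕ, ∃ L : ℝ, 1 ≤ L ∧ (2 ≤ e → ∀ P : Polynomial ℂ, P.natDegree = e →
      (∀ i, ‖P.coeff i‖ ≤ B) → 1 / B ≤ ‖P.leadingCoeff‖ →
      ∀ x y : Sph, dist (rat P 1 x) (rat P 1 y) ≤ L * dist x y) := by
    intro e
    by_cases he : 2 ≤ e
    · obtain ⟨L, h1, h2⟩ := lip_deg he hB
      exact ⟨L, h1, fun _ => h2⟩
    · exact ⟨1, le_rfl, fun h => absurd h he⟩
  choose L hL1 hL using h
  refine ⟨∑ e ∈ Finset.range (d + 1), L e, ?_, ?_⟩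
  · calc 1 ≤ L 0 := hL1 0
      _ ≤ ∑ e ∈ Finset.range (d + 1), L e :=
        Finset.single_le_sum (f := L) (fun i _ => by linarith [hL1 i]) (Finset.mem_range.2 (by omega))
  · intro P hP x y
    refine (hL P.natDegree hP.1 P rfl hP.2.2.1 hP.2.2.2 x y).trans ?_
    apply mul_le_mul_of_nonneg_right _ dist_nonneg
    exact Finset.single_le_sum (f := L) (fun i _ => by linarith [hL1 i])
      (Finset.mem_range.2 (by have := hP.2.1; omega))

/-- the composition `(P (n-1) + a (n-1)) ∘ ... ∘ (P 0 + a 0)` -/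
noncomputable def compose (P : ℕ → Polynomial ℂ) (a : ℕ → ℂ) : ℕ → Polynomial ℂ
  | 0 => Polynomial.X
  | n + 1 => (P n + Polynomial.C (a n)).comp (compose P a n)

theorem compose_cp (P : ℕ → Polynomial ℂ) (A : ℕ → TR) (n : ℕ) (z : ℂ) :
    cp (kick A (fun j => rat (P j) 1)) 0 n (z : Sph) =
      (((compose P (fun j => (A j).t) n).eval z : ℂ) : Sph) := by
  induction n with
  | zero => simp [compose]
  | succ n ih =>
    rw [cp_succ, ih, Nat.zero_add]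
    show A n • rat (P n) 1 _ = _
    rw [rat_one, tr_coe]
    congr 1
    simp [compose]

theorem main (d : ℕ) (B : ℝ) (hB : 1 ≤ B) (ε : ℝ) (hε : 0 < ε) (M : ℕ) (hM : 1 ≤ M) :
    ∃ N : ℕ, ∀ n ≥ N, ∀ P : ℕ → Polynomial ℂ, (∀ j, Adm d B (P j)) →
      ∃ a : ℕ → ℂ, (∀ j, ‖a j‖ < ε) ∧ M * {j : ℕ | j < n ∧ a j ≠ 0}.ncard ≤ n ∧
        ∃ f : OnePoint ℂ → OnePoint ℂ, Continuous f ∧
          (∀ z : ℂ, f (OnePoint.some z) = OnePoint.some ((compose P a n).eval z)) ∧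
          ∀ x : Sph, (¬ ∃ U ∈ 𝓝 x, Set.InjOn f U) → Attr f x := by
  classical
  obtain ⟨L, hL1, hL⟩ := lip_all d hB
  have hB0 : 0 < B := by linarith
  have hW : ∀ i : {P : Polynomial ℂ // Adm d B P}, ∃ W : Finset Sph, W.card ≤ 2 * d ∧
      ∀ y : Sph, (¬ ∃ U ∈ 𝓝 y, Set.InjOn (rat i.1 1) U) → rat i.1 1 y ∈ W := by
    rintro ⟨P, hP⟩
    obtain ⟨W, h1, h2⟩ := cv_card (P := P) (Q := 1) isCoprime_one_right hP.1 (by simp)
    exact ⟨W, h1.trans (Nat.mul_le_mul_left _ hP.2.1), h2⟩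
  choose W hW1 hW2 using hW
  obtain ⟨N, hN⟩ := abstract_tr (fun i : {P : Polynomial ℂ // Adm d B P} => rat i.1 1)
    (fun i => Pool.Agent.H76.Fatou.lift_rat isCoprime_one_right) L hL1
    (fun i => hL i.1 i.2) (1 / (B * (B * d + 4) + 1)) (by positivity)
    (fun i => rat_one_infty (by have := i.2.1; omega)) (fun i x hx => half hB i.2 hx)
    W (2 * d) hW1 (min ε 1) (lt_min hε one_pos) (min_le_right _ _) (1 / 2) (by norm_num) M hM
  refine ⟨N, fun n hn P hP => ?_⟩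
  obtain ⟨A, hA1, hA2, Z, ρ, hρ0, hρ1, hZ1, hZ2⟩ := hN n hn (fun j => ⟨P j, hP j⟩)
  set g : ℕ → Sph → Sph := kick A (fun j => rat (P j) 1) with hg
  have hgl : ∀ t, Lift (g t) := fun t =>
    Lift.comp (lift_tr (A t)) (Pool.Agent.H76.Fatou.lift_rat isCoprime_one_right)
  refine ⟨fun j => (A j).t, fun j => (hA1 j).trans_le (min_le_left _ _), ?_, cp g 0 n,
    (cp_lift hgl 0 n).continuous, fun z => compose_cp P A n z, fun x hx => ?_⟩
  · have hset : {j : ℕ | j < n ∧ (A j).t ≠ 0} = {t : ℕ | t < n ∧ A t ≠ 1} := by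
      ext t
      constructor
      · rintro ⟨h1, h2⟩
        refine ⟨h1, fun h3 => h2 ?_⟩
        rw [h3, TR.one_t]
      · rintro ⟨h1, h2⟩
        refine ⟨h1, fun h3 => h2 ?_⟩
        exact TR.ext h3
    rw [hset]
    exact hA2
  obtain ⟨t, htn, ht⟩ := crit_cp (fun t => (hgl t).continuous) hx
  have hcrit : ¬ ∃ U ∈ 𝓝 (cp g 0 t x), Set.InjOn (rat (P t) 1) U := by
    rintro ⟨U, hU, hinj⟩
    apply ht
    refine ⟨U, hU, fun a ha b hb hab => hinj ha hb ?_⟩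
    have h1 : A t • rat (P t) 1 a = A t • rat (P t) 1 b := hab
    rw [← TR.inv_smul_smul (A t) (rat (P t) 1 a), h1, TR.inv_smul_smul]
  have hmem := hW2 ⟨P t, hP t⟩ _ hcrit
  obtain ⟨z, hz, hz2⟩ := hZ2 t htn _ hmem
  apply sink (cp_lift hgl 0 n) hρ0 hρ1 hZ1 (k := 2)
  refine ⟨z, hz, ?_⟩
  have e1 : cp g (t + 1) (n - (t + 1)) (A t • rat (P t) 1 (cp g 0 t x)) = cp g 0 n x := by
    have h1 : A t • rat (P t) 1 (cp g 0 t x) = cp g 0 (t + 1) x := by
      rw [cp_succ, Nat.zero_add]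
      rfl
    rw [h1]
    have h2 := cp_add g 0 (t + 1) (n - (t + 1)) x
    rw [Nat.zero_add, Nat.add_sub_cancel' (by omega : t + 1 ≤ n)] at h2
    exact h2.symm
  have e2 : (cp g 0 n)^[2] x = cp g 0 n (cp g 0 n x) := rfl
  rw [e2]
  rw [← e1]
  exact hz2

end Pool.Agent.H35.UP
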